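import Pool.Agent.Helper3.FC.Goals

/-!
# Project FC (MP_766b49_co): goal F9a
-/

set_option autoImplicit false

namespace Pool.Agent.Helper94.FC.F9a

open Pool.Agent.Helper3.FC
open scoped Classical BigOperators

/-- The chord of `exp`. -/
theorem chord (k : ℕ) (Λ z : ℝ) (hΛ : 0 < Λ) (hk : Real.log 2 ≤ k * Λ + 1 / 10000) (h0 : 0 ≤ z)
    (h1 : z ≤ 1) (h2 : z ≤ 4001 / 1000 * Λ) :
    (1 - z) ^ k ≤ 1 - 15 / 16 * (z / (4001 / 1000 * Λ)) := by
  have hD : 0 < 4001 / 1000 * Λ := by positivity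
  set b : ℝ := z / (4001 / 1000 * Λ) with hb
  have hb0 : 0 ≤ b := div_nonneg h0 hD.le
  have hb1 : b ≤ 1 := (div_le_one hD).2 h2
  have hz : z = b * (4001 / 1000 * Λ) := by rw [hb]; field_simp
  have e1 : (1 - z) ^ k ≤ Real.exp (-(k * z)) := by
    calc (1 - z) ^ k ≤ (Real.exp (-z)) ^ k :=
          pow_le_pow_left₀ (by linarith) (Real.one_sub_le_exp_neg z) k
      _ = Real.exp (-(k * z)) := by
          rw [← Real.exp_nat_mul]
          ring_nf
  have e2 : Real.exp (-(k * z)) ≤ (1 - b) + b * Real.exp (-(k * (4001 / 1000 * Λ))) := by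
    have h := convexOn_exp.2 (Set.mem_univ (0 : ℝ)) (Set.mem_univ (-(k * (4001 / 1000 * Λ))))
      (by linarith : 0 ≤ 1 - b) hb0 (by ring)
    simp only [smul_eq_mul, mul_zero, zero_add, Real.exp_zero, mul_one] at h
    have e : b * -(k * (4001 / 1000 * Λ)) = -(k * z) := by rw [hz]; ring
    rw [e] at h
    exact h
  have e3 : Real.exp (-(k * (4001 / 1000 * Λ))) ≤ 1 / 16 := by
    have hl := Real.log_two_gt_d9
    have h4 : -((k : ℝ) * (4001 / 1000 * Λ)) ≤ Real.log (1 / 16) := by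
      have e : Real.log (1 / 16) = -(4 * Real.log 2) := by
        rw [one_div, Real.log_inv, show (16 : ℝ) = 2 ^ (4 : ℕ) by norm_num, Real.log_pow]
        norm_num
      rw [e]
      nlinarith
    calc Real.exp (-(k * (4001 / 1000 * Λ))) ≤ Real.exp (Real.log (1 / 16)) := Real.exp_le_exp.2 h4
      _ = 1 / 16 := Real.exp_log (by norm_num)
  have e4 : b * Real.exp (-(k * (4001 / 1000 * Λ))) ≤ b * (1 / 16) :=
    mul_le_mul_of_nonneg_left e3 hb0
  linarith

theorem t (hp : PARStmt) (_h1 : F1) (h4 : F4) (h7 : F7) : F9a := by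
  obtain ⟨mp, hp⟩ := hp (1 / 10000) (by norm_num)
  obtain ⟨m4, h4⟩ := h4
  obtain ⟨m7, h7⟩ := h7
  refine ⟨max mp (max m4 m7), fun m hm => ?_⟩
  obtain ⟨-, -, -, hΛ, -, -, -, -, -, hk, -⟩ := hp m ((le_max_left _ _).trans hm)
  obtain ⟨L4, h4⟩ := h4 m (((le_max_left _ _).trans (le_max_right _ _)).trans hm)
  obtain ⟨L7, h7⟩ := h7 m (((le_max_right _ _).trans (le_max_right _ _)).trans hm)
  refine ⟨max L4 L7, fun L hL W l => ?_⟩
  have h4 := h4 L ((le_max_left _ _).trans hL) W l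
  have h7 := (h7 L ((le_max_right _ _).trans hL) W).1 l
  set Λ := Lam m with hΛd
  have hv : ∀ i, 0 ≤ W.v l i := fun i => by
    unfold World.v
    exact div_nonneg (Finset.sum_nonneg fun j hj => W.yV_nonneg j (Finset.mem_range.1 hj) l i)
      (Nat.cast_nonneg _)
  have hz0 : ∀ i, 0 ≤ W.z l i := fun i => by
    unfold World.z
    exact div_nonneg (Finset.sum_nonneg fun j hj => W.yZ_nonneg j (Finset.mem_range.1 hj) l i)
      (Nat.cast_nonneg _)
  have hz1 : ∀ i, W.z l i ≤ 1 := fun i => by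
    unfold World.z
    refine div_le_one_of_le₀ ?_ (Nat.cast_nonneg _)
    calc (∑ j ∈ Finset.range L, W.yZ j l i) ≤ ∑ _j ∈ Finset.range L, (1 : ℝ) :=
          Finset.sum_le_sum fun j hj => W.yZ_le j (Finset.mem_range.1 hj) l i
      _ = L := by simp
  have hz2 : ∀ i, W.z l i ≤ 4001 / 1000 * Λ := fun i => by
    have h := h4 i
    have hm1 : max 0 (1 - 3 * W.v l i / (4 * Λ)) ≤ 1 := by
      refine max_le zero_le_one ?_
      have : 0 ≤ 3 * W.v l i / (4 * Λ) := div_nonneg (by linarith [hv i]) (by linarith)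
      linarith
    calc W.z l i ≤ _ := h
      _ ≤ Λ * (4 * 1 + 1 / 10000) := mul_le_mul_of_nonneg_left (by linarith) hΛ.le
      _ ≤ 4001 / 1000 * Λ := by linarith
  have hf : 0 < W.f l := by linarith [h7.1]
  have hD : 0 < 4001 / 1000 * Λ := by positivity
  have hfD : 0 < W.f l * (4001 / 1000 * Λ) := by positivity
  have hzF : W.zF l ≤ W.f l * (4001 / 1000 * Λ) := by
    unfold World.zF World.f
    rw [Finset.sum_mul]
    refine Finset.sum_le_sum fun i _ => ?_
    by_cases hF : W.F l i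
    · simp only [if_pos hF]
      exact mul_le_mul_of_nonneg_left (hz2 i) (W.ρ_nonneg l i)
    · simp [if_neg hF]
  refine ⟨?_, ?_, ?_⟩
  · have := (div_le_one hfD).2 hzF
    linarith
  · refine Finset.sum_nonneg fun i _ => ?_
    by_cases hF : W.F l i
    · simp only [if_pos hF]
      exact mul_nonneg (W.ρ_nonneg l i) (pow_nonneg (by linarith [hz1 i]) _)
    · simp [if_neg hF]
  · have e1 : ∑ i, (if W.F l i then W.ρ l i * (1 - W.z l i) ^ pk m else 0) ≤
        ∑ i, ((if W.F l i then W.ρ l i else 0) -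
          15 / 16 / (4001 / 1000 * Λ) * (W.ρ l i * (if W.F l i then W.z l i else 0))) := by
      refine Finset.sum_le_sum fun i _ => ?_
      by_cases hF : W.F l i
      · simp only [if_pos hF]
        have h := mul_le_mul_of_nonneg_left
          (chord (pk m) Λ (W.z l i) hΛ hk (hz0 i) (hz1 i) (hz2 i)) (W.ρ_nonneg l i)
        calc W.ρ l i * (1 - W.z l i) ^ pk m ≤ _ := h
          _ = _ := by ring
      · simp [if_neg hF]
    rw [Finset.sum_sub_distrib, ← Finset.mul_sum] at e1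
    refine e1.trans (le_of_eq ?_)
    have e2 : (∑ i, if W.F l i then W.ρ l i else 0) = W.f l := rfl
    have e3 : (∑ i, W.ρ l i * (if W.F l i then W.z l i else 0)) = W.zF l := rfl
    rw [e2, e3]
    have hf' := hf.ne'
    have hΛ' := hΛ.ne'
    field_simp
    ring

end Pool.Agent.Helper94.FC.F9a
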